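import Pool.Agent.Helper13_Z3.Defs

set_option autoImplicit false

/-! CVL: lemmas on masks. -/

namespace Pool.Agent.Z3.H29

open Pool.Agent.Idx Pool.Agent.Idx.H48

section

variable {T : Type} {Γ : Gram T}

theorem flat_inl (t : T) (c : List (Item Γ)) : flat (Sum.inl t :: c) = t :: flat c := by
  simp [flat, iword]

theorem flat_inr (x : Γ.N × List T × Bool) (c : List (Item Γ)) :
    flat (Sum.inr x :: c) = x.2.1 ++ flat c := by
  simp [flat, iword]

theorem len_inl (t : T) (c : List (Item Γ)) :
    (flat (Sum.inl t :: c)).length = (flat c).length + 1 := by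
  rw [flat_inl, List.length_cons]

theorem len_inr (x : Γ.N × List T × Bool) (c : List (Item Γ)) :
    (flat (Sum.inr x :: c)).length = x.2.1.length + (flat c).length := by
  rw [flat_inr, List.length_append]

theorem at_inl {s s' : ℕ} {c : List (Item Γ)} {E : Γ.N} {u : List T} (t : T)
    (h : At (s + 1) c s' E u) : At s (Sum.inl t :: c) s' E u := by
  obtain ⟨c₁, c₂, b, hc, hs⟩ := h
  refine ⟨Sum.inl t :: c₁, c₂, b, by rw [hc]; rfl, ?_⟩
  rw [len_inl, hs]
  omega

theorem at_inr {s s' : ℕ} {c : List (Item Γ)} {E : Γ.N} {u : List T} (x : Γ.N × List T × Bool)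
    (h : At (s + x.2.1.length) c s' E u) : At s (Sum.inr x :: c) s' E u := by
  obtain ⟨c₁, c₂, b, hc, hs⟩ := h
  refine ⟨Sum.inr x :: c₁, c₂, b, by rw [hc]; rfl, ?_⟩
  rw [len_inr, hs]
  omega

theorem at_head (s : ℕ) (c : List (Item Γ)) (x : Γ.N × List T × Bool) :
    At s (Sum.inr x :: c) s x.1 x.2.1 :=
  ⟨[], c, x.2.2, rfl, by simp [flat]⟩

variable (b : ℕ → List T → Bool)

theorem cv_inl (s : ℕ) (t : T) (c : List (Item Γ)) (j : ℕ) :
    cv b s (Sum.inl t :: c) j = ((j == s) || cv b (s + 1) c j) := rfl

theorem cv_inr (s : ℕ) (x : Γ.N × List T × Bool) (c : List (Item Γ)) (j : ℕ) :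
    cv b s (Sum.inr x :: c) j =
      ((!(b s x.2.1) && decide (s ≤ j) && decide (j < s + x.2.1.length)) ||
        cv b (s + x.2.1.length) c j) := rfl

theorem cv_append (c d : List (Item Γ)) : ∀ s j,
    cv b s (c ++ d) j = (cv b s c j || cv b (s + (flat c).length) d j) := by
  induction c with
  | nil =>
    intro s j
    simp [cv, flat]
  | cons a c ih =>
    intro s j
    rcases a with t | x
    · rw [List.cons_append, cv_inl, cv_inl]
      have e : s + 1 + (flat c).length = s + ((flat c).length + 1) := by omega
      rw [ih, len_inl, Bool.or_assoc, e]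
    · rw [List.cons_append, cv_inr, cv_inr]
      have e : s + x.2.1.length + (flat c).length = s + (x.2.1.length + (flat c).length) := by
        omega
      rw [ih, len_inr, Bool.or_assoc, e]

theorem cv_support (c : List (Item Γ)) : ∀ s j, cv b s c j = true →
    s ≤ j ∧ j < s + (flat c).length := by
  induction c with
  | nil =>
    intro s j h
    simp [cv] at h
  | cons a c ih =>
    intro s j h
    rcases a with t | x
    · unfold cv at h
      rw [Bool.or_eq_true, beq_iff_eq] at h
      rw [len_inl]
      rcases h with h | h
      · omega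
      · have := ih _ _ h
        omega
    · unfold cv at h
      rw [Bool.or_eq_true, Bool.and_eq_true, Bool.and_eq_true, decide_eq_true_eq,
        decide_eq_true_eq] at h
      rw [len_inr]
      rcases h with h | h
      · omega
      · have := ih _ _ h
        omega

theorem rf_form (c : List (Item Γ)) : ∀ s, form (rf b s c) = form c := by
  induction c with
  | nil =>
    intro s
    rfl
  | cons a c ih =>
    intro s
    rcases a with t | x
    · unfold rf
      have := ih (s + 1)
      simp only [form, List.map_cons] at this ⊢
      rw [this]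
    · unfold rf
      have := ih (s + x.2.1.length)
      simp only [form, List.map_cons] at this ⊢
      rw [this]
      rfl

theorem rf_flat (c : List (Item Γ)) : ∀ s, flat (rf b s c) = flat c := by
  induction c with
  | nil =>
    intro s
    rfl
  | cons a c ih =>
    intro s
    rcases a with t | x
    · unfold rf
      rw [flat_inl, flat_inl, ih]
    · unfold rf
      rw [flat_inr, flat_inr, ih]

theorem rf_mem (c : List (Item Γ)) : ∀ s E u b', Sum.inr (E, u, b') ∈ rf b s c →
    ∃ s' b'', At s c s' E u ∧ b' = b s' u ∧ Sum.inr (E, u, b'') ∈ c := by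
  induction c with
  | nil =>
    intro s E u b' h
    simp [rf] at h
  | cons a c ih =>
    intro s E u b' h
    rcases a with t | x
    · unfold rf at h
      rw [List.mem_cons] at h
      rcases h with h | h
      · cases h
      · obtain ⟨s', b'', h1, h2, h3⟩ := ih _ _ _ _ h
        exact ⟨s', b'', at_inl t h1, h2, List.mem_cons_of_mem _ h3⟩
    · unfold rf at h
      rw [List.mem_cons] at h
      rcases h with h | h
      · have h' := Sum.inr.inj h
        obtain ⟨E₀, u₀, b₀⟩ := x
        simp only [Prod.mk.injEq] at h'
        obtain ⟨rfl, rfl, rfl⟩ := h'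
        exact ⟨s, b₀, at_head s c _, rfl, List.mem_cons_self⟩
      · obtain ⟨s', b'', h1, h2, h3⟩ := ih _ _ _ _ h
        exact ⟨s', b'', at_inr x h1, h2, List.mem_cons_of_mem _ h3⟩

theorem mask_inl (t : T) (c : List (Item Γ)) : mask (Sum.inl t :: c) = true :: mask c := by
  simp [mask, imask]

theorem mask_inr (x : Γ.N × List T × Bool) (c : List (Item Γ)) :
    mask (Sum.inr x :: c) = List.replicate x.2.1.length (!x.2.2) ++ mask c := by
  simp [mask, imask]

theorem mask_length (c : List (Item Γ)) : (mask c).length = (flat c).length := by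
  induction c with
  | nil => rfl
  | cons a c ih =>
    rcases a with t | x
    · rw [mask_inl, len_inl, List.length_cons, ih]
    · rw [mask_inr, len_inr, List.length_append, List.length_replicate, ih]

theorem getD_replicate_app (n i : ℕ) (a : Bool) (l : List Bool) :
    (List.replicate n a ++ l).getD i false = if i < n then a else l.getD (i - n) false := by
  split_ifs with h
  · rw [List.getD_append _ _ _ _ (by simpa using h), List.getD_eq_getElem _ _ (by simpa using h),
      List.getElem_replicate]
  · rw [List.getD_append_right _ _ _ _ (by simpa using Nat.le_of_not_lt h), List.length_replicate]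

theorem mask_get (c : List (Item Γ)) : ∀ s i,
    (mask (rf b s c)).getD i false = cv b s c (s + i) := by
  induction c with
  | nil =>
    intro s i
    simp [rf, mask, cv]
  | cons a c ih =>
    intro s i
    rcases a with t | x
    · unfold rf cv
      rw [mask_inl]
      rcases Nat.eq_zero_or_pos i with h | h
      · subst h
        simp
      · obtain ⟨k, rfl⟩ : ∃ k, i = k + 1 := ⟨i - 1, by omega⟩
        rw [List.getD_cons_succ, ih]
        have h1 : (s + (k + 1) == s) = false := by
          rw [beq_eq_false_iff_ne]
          omega
        rw [h1, Bool.false_or]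
        congr 1
        omega
    · unfold rf cv
      rw [mask_inr]
      rw [getD_replicate_app]
      split_ifs with h
      · have h1 : decide (s ≤ s + i) = true := by
          rw [decide_eq_true_eq]
          omega
        have h2 : decide (s + i < s + x.2.1.length) = true := by
          rw [decide_eq_true_eq]
          have : i < x.2.1.length := h
          omega
        rw [h1, h2, Bool.and_true, Bool.and_true]
        have h3 : cv b (s + x.2.1.length) c (s + i) = false := by
          rw [← Bool.not_eq_true]
          intro h4
          have := cv_support b c _ _ h4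
          have : i < x.2.1.length := h
          omega
        rw [h3, Bool.or_false]
      · have h0 : ¬ i < x.2.1.length := h
        have h2 : decide (s + i < s + x.2.1.length) = false := by
          rw [decide_eq_false_iff_not]
          omega
        rw [h2, Bool.and_false, Bool.false_or, ih]
        congr 1
        have h5 : ((x.1, x.2.1, b s x.2.1) : Γ.N × List T × Bool).2.1.length = x.2.1.length := rfl
        rw [h5]
        omega

theorem fmask_get (P Z : List T) (s : ℕ) (hP : P.length = s) (c : List (Item Γ)) (j : ℕ) :
    (fmask P Z (rf b s c)).getD j false = cv b s c j := by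
  unfold fmask
  rw [List.append_assoc, getD_replicate_app, hP]
  have hl : (mask (rf b s c)).length = (flat c).length := by
    rw [mask_length, rf_flat]
  split_ifs with h
  · symm
    rw [← Bool.not_eq_true]
    intro h4
    have := cv_support b c _ _ h4
    omega
  · by_cases h1 : j - s < (flat c).length
    · rw [List.getD_append _ _ _ _ (by omega), mask_get]
      congr 1
      omega
    · rw [List.getD_append_right _ _ _ _ (by omega), hl]
      have h3 : cv b s c j = false := by
        rw [← Bool.not_eq_true]
        intro h4
        have := cv_support b c _ _ h4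
        omega
      rw [h3]
      have h6 := getD_replicate_app Z.length (j - s - (flat c).length) false []
      rw [List.append_nil] at h6
      rw [h6]
      split_ifs
      · rfl
      · rfl

theorem cover (c : List (Item Γ)) : ∀ s j, s ≤ j → j < s + (flat c).length →
    cv b s c j = true ∨ ∃ s' E u, At s c s' E u ∧ s' ≤ j ∧ j < s' + u.length ∧ b s' u = true := by
  induction c with
  | nil =>
    intro s j h1 h2
    simp [flat] at h2
    omega
  | cons a c ih =>
    intro s j h1 h2
    rcases a with t | x
    · rw [len_inl] at h2
      unfold cv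
      rw [Bool.or_eq_true, beq_iff_eq]
      by_cases h : j = s
      · exact Or.inl (Or.inl h)
      · rcases ih (s + 1) j (by omega) (by omega) with h3 | ⟨s', E, u, h3, h4⟩
        · exact Or.inl (Or.inr h3)
        · exact Or.inr ⟨s', E, u, at_inl t h3, h4⟩
    · rw [len_inr] at h2
      unfold cv
      rw [Bool.or_eq_true, Bool.and_eq_true, Bool.and_eq_true, decide_eq_true_eq,
        decide_eq_true_eq]
      by_cases h : j < s + x.2.1.length
      · by_cases hb : b s x.2.1 = true
        · exact Or.inr ⟨s, x.1, x.2.1, at_head s c x, h1, h, hb⟩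
        · rw [Bool.not_eq_true] at hb
          exact Or.inl (Or.inl ⟨⟨by rw [hb]; rfl, h1⟩, h⟩)
      · rcases ih (s + x.2.1.length) j (by omega) (by omega) with h3 | ⟨s', E, u, h3, h4⟩
        · exact Or.inl (Or.inr h3)
        · exact Or.inr ⟨s', E, u, at_inr x h3, h4⟩

theorem not_cv (c : List (Item Γ)) (s s' : ℕ) (E : Γ.N) (u : List T) (j : ℕ)
    (h : At s c s' E u) (h1 : s' ≤ j) (h2 : j < s' + u.length) (hb : b s' u = true) :
    cv b s c j = false := by
  obtain ⟨c₁, c₂, b₀, rfl, hs⟩ := h
  rw [cv_append, ← hs]
  have h3 : cv b s c₁ j = false := by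
    rw [← Bool.not_eq_true]
    intro h4
    have := cv_support b c₁ _ _ h4
    omega
  rw [h3, Bool.false_or]
  unfold cv
  simp only
  have h5 : cv b (s' + u.length) c₂ j = false := by
    rw [← Bool.not_eq_true]
    intro h4
    have := cv_support b c₂ _ _ h4
    omega
  rw [h5, hb]
  rfl

theorem compare (b' : ℕ → List T → Bool) (c : List (Item Γ)) (j : ℕ) : ∀ s,
    (∀ s' E u, At s c s' E u → s' ≤ j → j < s' + u.length → b' s' u = true → b s' u = true) →
    cv b s c j = true → cv b' s c j = true := by
  induction c with
  | nil =>
    intro s _ h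
    simp [cv] at h
  | cons a c ih =>
    intro s H h
    rcases a with t | x
    · unfold cv at h ⊢
      rw [Bool.or_eq_true, beq_iff_eq] at h ⊢
      rcases h with h | h
      · exact Or.inl h
      · exact Or.inr (ih (s + 1) (fun s' E u h1 => H s' E u (at_inl t h1)) h)
    · unfold cv at h ⊢
      rw [Bool.or_eq_true, Bool.and_eq_true, Bool.and_eq_true, decide_eq_true_eq,
        decide_eq_true_eq] at h ⊢
      rcases h with ⟨⟨h1, h2⟩, h3⟩ | h
      · refine Or.inl ⟨⟨?_, h2⟩, h3⟩
        have h4 := H s x.1 x.2.1 (at_head s c x) h2 h3
        rw [Bool.not_eq_true'] at h1 ⊢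
        rw [← Bool.not_eq_true] at h1 ⊢
        exact fun h5 => h1 (h4 h5)
      · exact Or.inr (ih (s + x.2.1.length) (fun s' E u h1 => H s' E u (at_inr x h1)) h)

end

theorem cvl : CvlStmt := by
  intro T Γ b b' s c d
  refine ⟨fun j => cv_append b c d s j, fun j => cv_support b c s j,
    ⟨rf_form b c s, rf_flat b c s, ?_⟩, fun E u b₁ => rf_mem b c s E u b₁,
    fun P Z hP j => fmask_get b P Z s hP c j, fun j => cover b c s j,
    fun s' E u j => not_cv b c s s' E u j, fun j => compare b b' c j s⟩
  intro σ hσ A u b₁ h
  obtain ⟨s', b₂, -, -, h3⟩ := rf_mem b c s A u b₁ h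
  exact hσ A u b₂ h3

end Pool.Agent.Z3.H29
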